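import Mathlib

set_option autoImplicit false

namespace Pool.Agent.Results.MP_fa4fe0_co.Counter

open Finset

variable {d n : ℕ}

/-- `K` is a polyplex of the `(0,1)`-matrix whose unit entries form the set `A`. -/
def Polyplex (A : Set (Fin d → Fin n)) (K : (Fin d → Fin n) → ℝ) : Prop :=
  (∀ α, 0 ≤ K α) ∧ (∀ α ∉ A, K α = 0) ∧ ∀ i j, ∑ α with α i = j, K α ≤ 1

/-- The weights of the polyplexes of `A`. -/
def weights (A : Set (Fin d → Fin n)) : Set ℝ := {w | ∃ K, Polyplex A K ∧ ∑ α, K α = w}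

def Extremal (A : Set (Fin d → Fin n)) : Prop :=
  (n : ℝ) ∉ weights A ∧ ∀ β ∉ A, (n : ℝ) ∈ weights (insert β A)

def Cover (A : Set (Fin d → Fin n)) (Λ : Fin d → Fin n → ℝ) : Prop :=
  (∀ i j, 0 ≤ Λ i j) ∧ ∀ α ∈ A, 1 ≤ ∑ i, Λ i (α i)

def OptCover (A : Set (Fin d → Fin n)) (Λ : Fin d → Fin n → ℝ) : Prop :=
  Cover A Λ ∧ ∀ Λ', Cover A Λ' → ∑ i, ∑ j, Λ i j ≤ ∑ i, ∑ j, Λ' i j

lemma dual {A : Set (Fin d → Fin n)} {K Λ} (h : Polyplex A K) (k : Cover A Λ) :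
    ∑ α, K α ≤ ∑ i, ∑ j, Λ i j :=
  calc ∑ α, K α ≤ ∑ α, ∑ i, Λ i (α i) * K α := sum_le_sum fun α _ => by
        rw [← sum_mul]
        by_cases a : α ∈ A
        · exact le_mul_of_one_le_left (h.1 α) (k.2 α a)
        · simp [h.2.1 α a]
    _ = ∑ i, ∑ j, Λ i j * ∑ α with α i = j, K α := by
        rw [sum_comm]
        refine sum_congr rfl fun i _ => ?_
        rw [← sum_fiberwise (g := fun α => α i)]
        exact sum_congr rfl fun j _ => by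
          rw [mul_sum]; exact sum_congr rfl fun α h => by rw [(mem_filter.1 h).2]
    _ ≤ _ := sum_le_sum fun i _ => sum_le_sum fun j _ => mul_le_of_le_one_right (k.1 i j) (h.2.2 i j)

def wt (w : Fin 9 → ℕ) (α : Fin 9 → Fin 2) : ℕ := ∑ i, w i * α i
def w₁ : Fin 9 → ℕ := ![13, 7, 6, 6, 4, 4, 4, 3, 2]
def w₂ : Fin 9 → ℕ := ![26, 14, 12, 12, 8, 8, 8, 5, 5]
def k (α : Fin 9 → Fin 2) : ℕ := match wt (2 ^ ·.1) α with
  | 13 => 7 | 113 => 5 | 118 => 6 | 122 => 6 | 387 => 13 | 444 => 4 | 476 => 4 | 492 => 4 | _ => 0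

theorem result : ∃ (A : Set (Fin 9 → Fin 2)) (δ : ℝ) (Λ : Fin 9 → Fin 2 → ℝ), Extremal A ∧
    IsGreatest (weights A) (2 - δ) ∧ OptCover A Λ ∧ ∃ i j, ∀ z : ℤ, Λ i j ≠ z * δ := by
  have a1 : ∀ α, wt w₁ α < 25 → k α = 0 ∧ 25 ≤ wt w₁ fun i => (α i).rev := by decide +kernel
  have a2 : ∀ i j, ∑ α with α i = j, k α ≤ 25 := by decide +kernel
  have a3 : ∑ α, k α = 49 := by decide +kernel
  have a4 : ∀ α, 25 ≤ wt w₁ α → 50 ≤ wt w₂ α := by decide +kernel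
  have p : Polyplex {α | 25 ≤ wt w₁ α} fun α => k α / 25 :=
    ⟨fun _ => div_nonneg (Nat.cast_nonneg _) (by norm_num), fun α h => by simp [(a1 α (not_le.1 h)).1], fun i j => by
      rw [← sum_div, div_le_one (by norm_num)]; exact_mod_cast a2 i j⟩
  have s : ∑ α, (k α / 25 : ℝ) = 2 - 1 / 25 := by
    rw [← sum_div, ← Nat.cast_sum, a3]; norm_num
  have c : Cover {α | 25 ≤ wt w₁ α} fun i j => (w₂ i * j : ℕ) / 50 :=
    ⟨fun _ _ => div_nonneg (Nat.cast_nonneg _) (by norm_num), fun α h => by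
      rw [← sum_div, one_le_div (by norm_num)]; exact_mod_cast a4 α h⟩
  have t : ∑ i : Fin 9, ∑ j : Fin 2, ((w₂ i * j : ℕ) / 50 : ℝ) = 2 - 1 / 25 := by
    simp [Fin.sum_univ_succ, w₂]; norm_num
  have u : ∀ w ∈ weights {α | 25 ≤ wt w₁ α}, w ≤ 2 - 1 / 25 := fun _ ⟨K, h, e⟩ =>
    e ▸ t ▸ dual h c
  refine ⟨_, 1 / 25, _, ⟨fun h => by have := u _ h; norm_num at this, fun β h => ?_⟩,
    ⟨⟨_, p, s⟩, u⟩, ⟨c, fun _ h => t ▸ s ▸ dual p h⟩, 8, 1, fun z e => ?_⟩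
  · refine ⟨Pi.single β 1 + Pi.single (fun i => (β i).rev) 1, ⟨fun α => ?_, fun α e => ?_,
      fun i j => ?_⟩, by simp [sum_add_distrib]; norm_num⟩
    · simp only [Pi.add_apply, Pi.single_apply]; split_ifs <;> norm_num
    · rw [Pi.add_apply, Pi.single_eq_of_ne, Pi.single_eq_of_ne, add_zero]
      · rintro rfl; exact e (.inr (a1 β (not_le.1 h)).2)
      · rintro rfl; exact e (.inl rfl)
    · simp only [Pi.add_apply, sum_add_distrib, Pi.single_apply, sum_ite_eq', mem_filter, mem_univ,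
        true_and]
      generalize β i = b
      fin_cases b <;> fin_cases j <;> simp
  · have : (5 : ℝ) = 2 * z := by simp [w₂] at e; linarith
    have : (5 : ℤ) = 2 * z := by exact_mod_cast this
    omega

end Pool.Agent.Results.MP_fa4fe0_co.Counter
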